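import Pool.Agent.helper64.LE.Base

/-!
# le:BR — branching of a new connection from disjoint connections
-/

set_option autoImplicit false

open Finset Classical

namespace Pool.Agent.helper66.LE

section BR

variable {V : Type}

theorem BR_DC_mono {l : List (V × V)} {F F' : Finset (Sym2 V)} (h : F ⊆ F') (hd : DC l F) :
    DC l F' := inc_DC l F F' h hd

theorem BR_DC_cons {p : V × V} {l : List (V × V)} {F F₁ F₂ : Finset (Sym2 V)} (h1 : F₁ ⊆ F)
    (h2 : F₂ ⊆ F) (hd : Disjoint F₁ F₂) (hc : Conn F₁ p.1 p.2) (hl : DC l F₂) :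
    DC (p :: l) F := ⟨F₁, F₂, h1, h2, hd, hc, hl⟩

theorem BR_dis_mono {A B : Finset (Sym2 V) → Prop} {F F' : Finset (Sym2 V)} (h : F ⊆ F')
    (hd : Dis A B F) : Dis A B F' := inc_dis F F' h hd

/-- path lemma -/
theorem BR_spl {F : Finset (Sym2 V)} {a b : V} (h : Conn F a b) :
    ∃ F' ⊆ F, ∃ U : Set V, a ∈ U ∧ b ∈ U ∧ (∀ e ∈ F', ∀ x ∈ e, x ∈ U) ∧ Conn F' a b ∧
      ∀ s ∈ U, Dis (fun F => Conn F a s) (fun F => Conn F s b) F' := by
  obtain ⟨p, hp⟩ := exists_trail h
  have hpF : ∀ e ∈ p.edges, e ∈ F := by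
    intro e he
    have := p.edges_subset_edgeSet he
    rw [SimpleGraph.edgeSet_fromEdgeSet] at this
    exact_mod_cast this.1
  refine ⟨p.edges.toFinset, ?_, {x | x ∈ p.support}, p.start_mem_support, p.end_mem_support, ?_, ?_,
    ?_⟩
  · intro e he
    exact hpF e (List.mem_toFinset.1 he)
  · intro e he x hx
    rw [List.mem_toFinset] at he
    induction e with
    | _ u w =>
      rw [Sym2.mem_iff] at hx
      rcases hx with rfl | rfl
      · exact p.fst_mem_support_of_mem_edges he
      · exact p.snd_mem_support_of_mem_edges he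
  · exact conn_of_walk p fun e he => List.mem_toFinset.2 he
  · intro s hs
    have hs' : s ∈ p.support := hs
    have hspec := p.take_spec hs'
    have hed : (p.takeUntil s hs').edges ++ (p.dropUntil s hs').edges = p.edges := by
      rw [← SimpleGraph.Walk.edges_append, hspec]
    have hnd : ((p.takeUntil s hs').edges ++ (p.dropUntil s hs').edges).Nodup := by
      rw [hed]
      exact hp.isTrail.edges_nodup
    refine ⟨(p.takeUntil s hs').edges.toFinset, (p.dropUntil s hs').edges.toFinset, ?_, ?_, ?_, ?_, ?_⟩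
    · intro e he
      rw [List.mem_toFinset] at he ⊢
      rw [← hed]
      exact List.mem_append_left _ he
    · intro e he
      rw [List.mem_toFinset] at he ⊢
      rw [← hed]
      exact List.mem_append_right _ he
    · rw [Finset.disjoint_left]
      intro e he he'
      rw [List.mem_toFinset] at he he'
      exact (List.disjoint_of_nodup_append hnd) he he'
    · exact conn_of_walk _ fun e he => List.mem_toFinset.2 he
    · exact conn_of_walk _ fun e he => List.mem_toFinset.2 he

theorem BR_last {F F' : Finset (Sym2 V)} {U : Set V} (hU : ∀ e ∈ F', ∀ x ∈ e, x ∈ U) {v y : V}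
    (h : Conn F v y) : Conn (F \ F') v y ∨ ∃ s ∈ U, Conn (F \ F') s y := by
  refine h.symm.mem_of_closed (S := {a | Conn (F \ F') a y ∨ ∃ s ∈ U, Conn (F \ F') s y}) ?_
    (Or.inl (conn_refl _ _))
  intro a b hab ha
  rcases ha with ha | ha
  · by_cases he : s(a, b) ∈ F'
    · exact Or.inr ⟨a, hU _ he a (Sym2.mem_mk_left a b), ha⟩
    · have : Conn (F \ F') a b := conn_of_mem (Finset.mem_sdiff.2 ⟨hab, he⟩)
      exact Or.inl (this.symm.trans ha)
  · exact Or.inr ha

theorem BR_claim (l : List (V × V)) : ∀ (F : Finset (Sym2 V)) (v y : V), DC l F → Conn F v y →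
    (∃ (l₁ : List (V × V)) (p : V × V) (l₂ : List (V × V)) (s : V),
      l = l₁ ++ p :: l₂ ∧ DC (l₁ ++ (p.1, s) :: (s, p.2) :: (s, y) :: l₂) F) ∨
    DC ((v, y) :: l) F := by
  induction l with
  | nil =>
    intro F v y _ hc
    exact Or.inr (BR_DC_cons (Finset.Subset.refl F) (Finset.empty_subset F)
      (Finset.disjoint_empty_right F) hc trivial)
  | cons p l ih =>
    intro F v y hd hc
    obtain ⟨F₁, F₂, h1, h2, h12, hp, hl⟩ := hd
    obtain ⟨F', hF', U, haU, hbU, hU, hpc, hdis⟩ := BR_spl hp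
    have hF'F : F' ⊆ F := hF'.trans h1
    have hG : F₂ ⊆ F \ F' := by
      intro e he
      refine Finset.mem_sdiff.2 ⟨h2 he, fun he' => ?_⟩
      exact (Finset.disjoint_left.1 h12) (hF' he') he
    have hlG : DC l (F \ F') := BR_DC_mono hG hl
    have hGF : F \ F' ⊆ F := Finset.sdiff_subset
    have hdj : Disjoint F' (F \ F') := Finset.disjoint_sdiff
    rcases BR_last hU hc with hv | ⟨s, hs, hsy⟩
    · rcases ih (F \ F') v y hlG hv with ⟨l₁, p', l₂, s, he, hd'⟩ | hd'
      · refine Or.inl ⟨p :: l₁, p', l₂, s, by rw [he]; rfl, ?_⟩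
        exact BR_DC_cons hF'F hGF hdj hpc hd'
      · right
        obtain ⟨G₁, G₂, k1, k2, k12, kc, kl⟩ := hd'
        refine BR_DC_cons (F₁ := G₁) (F₂ := F' ∪ G₂) (k1.trans hGF)
          (Finset.union_subset hF'F (k2.trans hGF)) ?_ kc ?_
        · rw [Finset.disjoint_union_right]
          exact ⟨(hdj.mono_right k1).symm, k12⟩
        · exact BR_DC_cons Finset.subset_union_left Finset.subset_union_right
            (hdj.mono_right k2) hpc kl
    · rcases ih (F \ F') s y hlG hsy with ⟨l₁, p', l₂, s', he, hd'⟩ | hd'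
      · refine Or.inl ⟨p :: l₁, p', l₂, s', by rw [he]; rfl, ?_⟩
        exact BR_DC_cons hF'F hGF hdj hpc hd'
      · left
        refine ⟨[], p, l, s, rfl, ?_⟩
        obtain ⟨A, B, hA, hB, hAB, cA, cB⟩ := hdis s hs
        show DC ((p.1, s) :: (s, p.2) :: (s, y) :: l) F
        refine BR_DC_cons (F₁ := A) (F₂ := B ∪ (F \ F')) (hA.trans hF'F)
          (Finset.union_subset (hB.trans hF'F) hGF) ?_ cA ?_
        · rw [Finset.disjoint_union_right]
          exact ⟨hAB, hdj.mono_left hA⟩
        · exact BR_DC_cons Finset.subset_union_left Finset.subset_union_right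
            (hdj.mono_left hB) cB hd'

/-- LH: branching of a new connection from disjoint connections -/
theorem branch {F : Finset (Sym2 V)} (l : List (V × V)) (v v' y : V)
    (h : DC ((v, v') :: l) F) (hy : Conn F v y) :
    ∃ (l₁ : List (V × V)) (p : V × V) (l₂ : List (V × V)) (s : V),
      (v, v') :: l = l₁ ++ p :: l₂ ∧ DC (l₁ ++ (p.1, s) :: (s, p.2) :: (s, y) :: l₂) F := by
  rcases BR_claim ((v, v') :: l) F v y h hy with h' | h'
  · exact h'
  · refine ⟨[], (v, v'), l, v, rfl, ?_⟩
    show DC ((v, v) :: (v, v') :: (v, y) :: l) F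
    obtain ⟨G₁, G₂, k1, k2, k12, kc, kl⟩ := h'
    obtain ⟨H₁, H₂, j1, j2, j12, jc, jl⟩ := kl
    refine BR_DC_cons (F₁ := ∅) (F₂ := F) (Finset.empty_subset F) (Finset.Subset.refl F)
      (Finset.disjoint_empty_left F) (conn_refl _ _) ?_
    refine BR_DC_cons (F₁ := H₁) (F₂ := G₁ ∪ H₂) (j1.trans k2)
      (Finset.union_subset k1 (j2.trans k2)) ?_ jc ?_
    · rw [Finset.disjoint_union_right]
      exact ⟨(k12.mono_right j1).symm, j12⟩
    · exact BR_DC_cons Finset.subset_union_left Finset.subset_union_right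
        (k12.mono_right j2) kc jl

theorem hit {F : Finset (Sym2 V)} {A : Set V} {t x : V} (h : Conn F t x)
    (h' : ¬ ConnOff F A t x) :
    ∃ a ∈ A, Dis (fun F => Conn F t a) (fun F => Conn F a x) F := by
  obtain ⟨F', hF', U, haU, hbU, hU, hpc, hdis⟩ := BR_spl h
  by_contra hcon
  apply h'
  have hUA : ∀ s ∈ U, s ∉ A := by
    intro s hs hsA
    exact hcon ⟨s, hsA, BR_dis_mono hF' (hdis s hs)⟩
  refine ⟨hUA t haU, hUA x hbU, hpc.mono ?_⟩
  intro e he
  unfold off
  rw [Finset.mem_filter]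
  exact ⟨hF' he, fun a ha => hUA a (hU e he a ha)⟩

end BR

end Pool.Agent.helper66.LE
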