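import Pool.Agent.helper83.LE.SpecB

/-!
# Row le:DUA (MP_baa4d7_al), spec Pool/Agent/helper83/LE/SpecB.lean
-/

set_option autoImplicit false

namespace Pool.Agent.LE

open Pool.Agent.helper58.DC Pool.Agent.DI Pool.Agent.GR Pool.Agent.OB Pool.Agent.DR Pool.Agent.FI Pool.Agent.FI3 Pool.Agent.FI4 Pool.Agent.FI4C

theorem DUA : DUA_stmt := by
  intro D _ _ B
  obtain ⟨e⟩ := CommGroup.monoidHom_mulEquiv_of_hasEnoughRootsOfUnity D ℂ
  refine Nat.card_congr (e.toEquiv.subtypeEquiv ?_)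
  intro l
  have h : orderOf (e.toEquiv l) = orderOf l := MulEquiv.orderOf_eq e l
  rw [h]

end Pool.Agent.LE
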