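import Pool.Agent.helper49.LE.BR

/-!
# le:MG — Menger's theorem for two edge-disjoint paths
-/

set_option autoImplicit false

open Finset Classical

namespace Pool.Agent.helper66.LE

section MG

variable {V : Type}

theorem MG_step {F : Finset (Sym2 V)} {t y z : V}
    (hz : Dis (fun F => Conn F t z) (fun F => Conn F t z) F) (he : s(z, y) ∈ F)
    (hc : Conn (F.erase s(z, y)) t y) :
    Dis (fun F => Conn F t y) (fun F => Conn F t y) F := by
  obtain ⟨F₁, F₂, h1, h2, h12, c1, c2⟩ := hz
  -- a path to `z` which needs the edge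
  have key : ∀ {F₁ F₂ : Finset (Sym2 V)}, F₁ ⊆ F → F₂ ⊆ F → Disjoint F₁ F₂ → Conn F₁ t z →
      Conn F₂ t z → ¬ Conn (F₁.erase s(z, y)) t z →
      Dis (fun F => Conn F t y) (fun F => Conn F t y) F := by
    intro F₁ F₂ h1 h2 h12 c1 c2 hn
    obtain ⟨hm, h3⟩ := conn_erase c1 hn
    have h4 : Conn (F₁.erase s(z, y)) t y := by
      rcases h3 with h3 | h3
      · exact absurd h3.1 hn
      · exact h3.1
    refine ⟨F₁.erase s(z, y), insert s(z, y) F₂, (Finset.erase_subset _ _).trans h1,
      Finset.insert_subset he h2, ?_, h4, ?_⟩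
    · rw [Finset.disjoint_insert_right]
      exact ⟨Finset.notMem_erase _ _, h12.mono_left (Finset.erase_subset _ _)⟩
    · exact (c2.mono (Finset.subset_insert _ _)).trans (conn_of_mem (Finset.mem_insert_self _ _))
  by_cases hn1 : Conn (F₁.erase s(z, y)) t z
  · by_cases hn2 : Conn (F₂.erase s(z, y)) t z
    · have hF₁ : F₁.erase s(z, y) ⊆ F.erase s(z, y) := Finset.erase_subset_erase _ h1
      have hF₂ : F₂.erase s(z, y) ⊆ F.erase s(z, y) := Finset.erase_subset_erase _ h2
      have hdc : DC [(t, z), (t, z)] (F.erase s(z, y)) :=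
        BR_DC_cons hF₁ hF₂ ((h12.mono_left (Finset.erase_subset _ _)).mono_right
          (Finset.erase_subset _ _)) hn1 (BR_DC_cons (Finset.Subset.refl _)
          (Finset.empty_subset _) (Finset.disjoint_empty_right _) hn2 trivial)
      obtain ⟨l₁, p, l₂, s, heq, hd⟩ := branch [(t, z)] t z y hdc hc
      have hes : F.erase s(z, y) ⊆ F := Finset.erase_subset _ _
      -- from three disjoint sets
      have fin : ∀ (P Q R : Finset (Sym2 V)), P ⊆ F.erase s(z, y) → Q ⊆ F.erase s(z, y) →
          R ⊆ F.erase s(z, y) → Disjoint P R → Disjoint Q R → Conn P t s → Conn Q s y →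
          Conn R t z → Dis (fun F => Conn F t y) (fun F => Conn F t y) F := by
        intro P Q R hP hQ hR hPR hQR cP cQ cR
        refine ⟨P ∪ Q, insert s(z, y) R, Finset.union_subset (hP.trans hes) (hQ.trans hes),
          Finset.insert_subset he (hR.trans hes), ?_, ?_, ?_⟩
        · rw [Finset.disjoint_insert_right, Finset.disjoint_union_left]
          refine ⟨?_, hPR, hQR⟩
          intro hmem
          rcases Finset.mem_union.1 hmem with hm | hm
          · exact Finset.notMem_erase _ _ (hP hm)
          · exact Finset.notMem_erase _ _ (hQ hm)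
        · exact (cP.mono Finset.subset_union_left).trans (cQ.mono Finset.subset_union_right)
        · exact (cR.mono (Finset.subset_insert _ _)).trans
            (conn_of_mem (Finset.mem_insert_self _ _))
      rcases l₁ with _ | ⟨p₁, l₁⟩
      · rw [List.nil_append, List.cons.injEq] at heq
        obtain ⟨rfl, rfl⟩ := heq
        obtain ⟨G₁, G₂, k1, k2, k12, d1, G₃, G₄, k3, k4, k34, d2, G₅, G₆, k5, k6, k56, d3, G₇, G₈,
          k7, k8, k78, d4, d5⟩ := hd
        exact fin G₁ G₅ G₇ k1 (k5.trans (k4.trans k2)) (k7.trans (k6.trans (k4.trans k2)))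
          (k12.mono_right (k7.trans (k6.trans k4))) (k56.mono_right k7) d1 d3 d4
      · rcases l₁ with _ | ⟨p₂, l₁⟩
        · rw [List.cons_append, List.nil_append, List.cons.injEq, List.cons.injEq] at heq
          obtain ⟨rfl, rfl, rfl⟩ := heq
          obtain ⟨G₁, G₂, k1, k2, k12, d1, G₃, G₄, k3, k4, k34, d2, G₅, G₆, k5, k6, k56, d3, G₇, G₈,
            k7, k8, k78, d4, d5⟩ := hd
          refine fin G₃ G₇ G₁ (k3.trans k2) (k7.trans (k6.trans (k4.trans k2))) k1
            (k12.mono_right k3).symm (k12.mono_right (k7.trans (k6.trans k4))).symm d2 d4 d1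
        · exfalso
          have := congrArg List.length heq
          simp at this
    · exact key h2 h1 h12.symm c2 c1 hn2
  · exact key h1 h2 h12 c1 c2 hn1

/-- MG: Menger for two edge-disjoint paths -/
theorem two_paths (F : Finset (Sym2 V)) (t x : V) (h : Conn F t x) (hp : ∀ u w, ¬ Piv F t x u w) :
    Dis (fun F => Conn F t x) (fun F => Conn F t x) F := by
  by_contra hx
  set S : Set V := {y | Dis (fun F => Conn F t y) (fun F => Conn F t y) F} with hS
  have hxS : x ∉ S := hx
  have htS : t ∈ S := ⟨∅, ∅, Finset.empty_subset _, Finset.empty_subset _,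
    Finset.disjoint_empty_left _, conn_refl _ _, conn_refl _ _⟩
  -- there is a boundary edge of the component of `x` off `S`
  have hex : ∃ y z, Conn (off F S) x y ∧ ¬ Conn (off F S) x z ∧ s(y, z) ∈ F := by
    by_contra hcon
    push Not at hcon
    have : Conn (off F S) x t := by
      refine h.symm.mem_of_closed (S := {a | Conn (off F S) x a}) ?_ (conn_refl _ _)
      intro a b hab ha
      by_contra hb
      exact hcon a b ha hb hab
    exact notMem_of_conn_off this hxS htS
  obtain ⟨y, z, hy, hz, hyz⟩ := hex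
  have hyS : y ∉ S := notMem_of_conn_off hy hxS
  have hzS : z ∈ S := by
    by_contra hzS
    exact hz (hy.trans (conn_of_mem (mem_off.2 ⟨hyz, hyS, hzS⟩)))
  have hzy : s(z, y) ∈ F := by
    rw [Sym2.eq_swap]
    exact hyz
  have h1 : ¬ Conn (F.erase s(z, y)) t y := fun hc => hyS (MG_step hzS hzy hc)
  have h2 : Conn (F.erase s(z, y)) y x := by
    refine hy.symm.mono ?_
    intro e he
    refine Finset.mem_erase.2 ⟨?_, off_subset he⟩
    rintro rfl
    exact (mem_off.1 he).2.1 hzS
  have h3 : ¬ Conn (F.erase s(z, y)) t x := fun hc => h1 (hc.trans h2.symm)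
  obtain ⟨-, h4 | h4⟩ := conn_erase h h3
  · exact hp z y ⟨hzy, h4.1, h4.2, h3⟩
  · exact h1 h4.1

end MG

end Pool.Agent.helper66.LE
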