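import Pool.Agent.helper64.LE.Base

/-!
# le:PT — the events of the lace expansion: first pivotal bond after the first hit
-/

set_option autoImplicit false

open Finset Classical

namespace Pool.Agent.helper66.LE

section PT

variable {V : Type}

theorem PT_erase_comm (F : Finset (Sym2 V)) (e e' : Sym2 V) :
    (F.erase e).erase e' = (F.erase e').erase e := Finset.erase_right_comm

/-- PT2 -/
theorem epr_not_piv {F : Finset (Sym2 V)} {A : Set V} {v x u w : V} (h : Epr F A v x)
    (h1 : Epr F A v u) : ¬ Piv F v x u w := fun hp => h.2 u w hp h1.thr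

theorem PT_piv_thr {F : Finset (Sym2 V)} {A : Set V} {v x u w : V} (hp : Piv F v x u w)
    (ht : Thr F A v u) : Thr F A v x := by
  refine ⟨hp.conn, fun hc => ht.2 ?_⟩
  have hp' := hp.sub (off_subset (F := F) (A := A)) hc.2.2
  have h1 : Conn (off F A) v u := hp'.2.1.mono (erase_sub _)
  exact ⟨hc.1, notMem_of_conn_off h1 hc.1, h1⟩

/-- a pivotal bond for `v → u`, where `(u, w)` is pivotal for `v → x`, is pivotal for `v → x` and cuts a
smaller cluster -/
theorem PT_lower {F : Finset (Sym2 V)} {v x u w u' w' : V} (hp : Piv F v x u w)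
    (hp' : Piv F v u u' w') : Piv F v x u' w' ∧
      clus (F.erase s(u', w')) v ⊂ clus (F.erase s(u, w)) v := by
  have hq : Piv (F.erase s(u, w)) v u u' w' := hp'.sub (erase_sub _) hp.2.1
  have hne : s(u', w') ≠ s(u, w) := (Finset.mem_erase.1 hq.1).1
  have hmem : s(u, w) ∈ F.erase s(u', w') := Finset.mem_erase.2 ⟨hne.symm, hp.1⟩
  have hs1 : (F.erase s(u, w)).erase s(u', w') ⊆ F.erase s(u, w) := erase_sub _
  have hs2 : (F.erase s(u, w)).erase s(u', w') ⊆ F.erase s(u', w') :=
    Finset.erase_subset_erase _ (erase_sub _)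
  have hs3 : (F.erase s(u', w')).erase s(u, w) ⊆ F.erase s(u, w) :=
    Finset.erase_subset_erase _ (erase_sub _)
  have hwx : Conn (F.erase s(u', w')) w x := by
    by_contra hn
    have hn' : ¬ Conn ((F.erase s(u, w)).erase s(u', w')) w x := fun h => hn (h.mono hs2)
    obtain ⟨-, h | h⟩ := conn_erase hp.2.2.1 hn'
    · exact hp.2.2.2 ((((h.1.trans hq.2.1.symm).mono hs1).symm).trans hp.2.2.1)
    · have h1 : Conn (F.erase s(u, w)) w u := (h.1.trans hq.2.2.1).mono hs1
      exact hp.2.2.2 ((hp.2.1.trans h1.symm).trans hp.2.2.1)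
  have hn2 : ¬ Conn (F.erase s(u', w')) v x := by
    intro hc
    have := hp.sub (erase_sub s(u', w')) hc
    exact hp'.2.2.2 (this.2.1.mono (erase_sub _))
  refine ⟨⟨hp'.1, hp'.2.1, (hp'.2.2.1.trans (conn_of_mem hmem)).trans hwx, hn2⟩, ?_⟩
  rw [Set.ssubset_iff_of_subset]
  · exact ⟨u, hp.2.1, hp'.2.2.2⟩
  · intro y hy
    have hy' : Conn (F.erase s(u', w')) v y := hy
    by_cases hc : Conn ((F.erase s(u', w')).erase s(u, w)) v y
    · exact hc.mono hs3
    · exfalso
      obtain ⟨-, h | h⟩ := conn_erase hy' hc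
      · exact hp'.2.2.2 (h.1.mono (erase_sub _))
      · exact hp.2.2.2 ((h.1.mono hs3).trans hp.2.2.1)

/-- PT1 -/
theorem thr_iff [Fintype V] (F : Finset (Sym2 V)) (A : Set V) (v x : V) :
    Thr F A v x ↔ Epr F A v x ∨ ∃ u w, Epr F A v u ∧ Piv F v x u w := by
  constructor
  · intro h
    by_cases hE : Epr F A v x
    · exact Or.inl hE
    · right
      have hex : ∃ p : V × V, Piv F v x p.1 p.2 ∧ Thr F A v p.1 := by
        by_contra hcon
        push Not at hcon
        exact hE ⟨h, fun u w hp => hcon (u, w) hp⟩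
      set T : Set (V × V) := {p | Piv F v x p.1 p.2 ∧ Thr F A v p.1} with hT
      have hTne : T.Nonempty := hex
      obtain ⟨p, hpT, hmin⟩ := Set.exists_min_image T
        (fun p => (clus (F.erase s(p.1, p.2)) v).ncard) (Set.toFinite T) hTne
      refine ⟨p.1, p.2, ⟨hpT.2, ?_⟩, hpT.1⟩
      intro u' w' hp' ht'
      obtain ⟨h1, h2⟩ := PT_lower hpT.1 hp'
      have h3 := hmin (u', w') ⟨h1, ht'⟩
      have h4 := Set.ncard_lt_ncard h2 (Set.toFinite _)
      exact absurd h3 (not_le.2 h4)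
  · rintro (h | ⟨u, w, h1, h2⟩)
    · exact h.thr
    · exact PT_piv_thr h2 h1.thr

theorem PT_aux {F : Finset (Sym2 V)} {v x u w u' w' : V} (h2 : Piv F v x u w)
    (h2' : Piv F v x u' w') (hn : ¬ Conn ((F.erase s(u, w)).erase s(u', w')) v u) :
    Piv F v u u' w' := by
  have hs1 : (F.erase s(u, w)).erase s(u', w') ⊆ F.erase s(u', w') :=
    Finset.erase_subset_erase _ (erase_sub _)
  have hs2 : (F.erase s(u', w')).erase s(u, w) ⊆ F.erase s(u, w) :=
    Finset.erase_subset_erase _ (erase_sub _)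
  obtain ⟨-, h | h⟩ := conn_erase h2.2.1 hn
  · refine ⟨h2'.1, h2'.2.1, h.2.mono hs1, ?_⟩
    intro hc
    rw [PT_erase_comm] at hn
    obtain ⟨-, h' | h'⟩ := conn_erase hc hn
    · exact hn h'.1
    · exact h2.2.2.2 ((h'.1.mono hs2).trans h2.2.2.1)
  · exact absurd ((h.1.mono hs1).trans h2'.2.2.1) h2'.2.2.2

/-- PT3 -/
theorem piv_unique {F : Finset (Sym2 V)} {A : Set V} {v x u w u' w' : V} (h1 : Epr F A v u)
    (h2 : Piv F v x u w) (h1' : Epr F A v u') (h2' : Piv F v x u' w') : u = u' ∧ w = w' := by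
  by_cases he : s(u, w) = s(u', w')
  · rw [Sym2.eq_iff] at he
    rcases he with he | ⟨h3, h4⟩
    · exact he
    · exfalso
      subst h3 h4
      have h5 : Conn (F.erase s(u, w)) v w := by
        have := h2'.2.1
        rwa [Sym2.eq_swap] at this
      exact h2.2.2.2 (h5.trans h2.2.2.1)
  · exfalso
    by_cases ha : Conn ((F.erase s(u, w)).erase s(u', w')) v u
    · by_cases hb : Conn ((F.erase s(u', w')).erase s(u, w)) v u'
      · rw [PT_erase_comm] at hb
        have hs1 : (F.erase s(u, w)).erase s(u', w') ⊆ F.erase s(u, w) := erase_sub _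
        have hs2 : (F.erase s(u, w)).erase s(u', w') ⊆ F.erase s(u', w') :=
          Finset.erase_subset_erase _ (erase_sub _)
        have hmem : s(u, w) ∈ F.erase s(u', w') := Finset.mem_erase.2 ⟨he, h2.1⟩
        by_cases hc : Conn ((F.erase s(u, w)).erase s(u', w')) w x
        · exact h2'.2.2.2 (((ha.mono hs2).trans (conn_of_mem hmem)).trans (hc.mono hs2))
        · obtain ⟨-, h | h⟩ := conn_erase h2.2.2.1 hc
          · exact h2.2.2.2 (((hb.trans h.1.symm).mono hs1).trans h2.2.2.1)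
          · exact h2.2.2.2 ((hb.trans h.2).mono hs1)
      · exact h1'.2 u w (PT_aux h2' h2 hb) h1.thr
    · exact h1.2 u' w' (PT_aux h2 h2' ha) h1'.thr

end PT

end Pool.Agent.helper66.LE
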